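import Pool.Agent.PFS.StmtsH

/-!
# PFS, hyperbolicity half, row CAY (helper9): Cayley graphs
-/

set_option autoImplicit false

namespace Pool.Agent.PFS.H9

variable {G : Type} [Group G]

theorem cay_adj {S : Finset G} {a s : G} (hs : s ∈ S) : (Cay S).Reachable a (a * s) := by
  by_cases h : a = a * s
  · rw [← h]
  · apply SimpleGraph.Adj.reachable
    rw [SimpleGraph.fromRel_adj]
    refine ⟨h, Or.inl ?_⟩
    rw [inv_mul_cancel_left]
    exact hs

theorem cay_reach {S : Finset G} (hS : Subgroup.closure (S : Set G) = ⊤) (g : G) :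
    ∀ a : G, (Cay S).Reachable a (a * g) := by
  have hg : g ∈ Subgroup.closure (S : Set G) := by
    rw [hS]
    exact Subgroup.mem_top g
  induction hg using Subgroup.closure_induction with
  | mem x hx =>
    intro a
    exact cay_adj (by exact_mod_cast hx)
  | one =>
    intro a
    rw [mul_one]
  | mul x y _ _ hx hy =>
    intro a
    have h := (hx a).trans (hy (a * x))
    rwa [mul_assoc] at h
  | inv x _ hx =>
    intro a
    have h := hx (a * x⁻¹)
    rw [inv_mul_cancel_right] at h
    exact h.symm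

/-- left multiplication -/
def lmul (S : Finset G) (g : G) : Cay S →g Cay S where
  toFun x := g * x
  map_rel' := by
    intro a b h
    rw [SimpleGraph.fromRel_adj] at h ⊢
    refine ⟨fun h1 => h.1 (mul_left_cancel h1), ?_⟩
    have e : ∀ x y : G, (g * x)⁻¹ * (g * y) = x⁻¹ * y := fun x y => by group
    rw [e, e]
    exact h.2

/-- CAY -/
theorem cay : CayStmt := by
  intro G _ S hS
  have hc : (Cay S).Connected := by
    refine ⟨fun a b => ?_⟩
    have h := cay_reach hS (a⁻¹ * b) a
    rwa [mul_inv_cancel_left] at h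
  refine ⟨hc, fun T hT => ⟨hT.toFinset.sup (fun t => (Cay S).dist 1 t), fun a b hab => ?_⟩⟩
  have h1 : (Cay S).dist a b ≤ (Cay S).dist 1 (a⁻¹ * b) := by
    obtain ⟨w, hw⟩ := hc.exists_walk_length_eq_dist 1 (a⁻¹ * b)
    have h2 := SimpleGraph.dist_le (w.map (lmul S a))
    rw [SimpleGraph.Walk.length_map, hw] at h2
    have e1 : (lmul S a) 1 = a := mul_one a
    have e2 : (lmul S a) (a⁻¹ * b) = b := mul_inv_cancel_left a b
    rwa [e1, e2] at h2
  exact h1.trans (Finset.le_sup (f := fun t => (Cay S).dist 1 t) (hT.mem_toFinset.2 hab))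

end Pool.Agent.PFS.H9
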